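import Pool.Agent.Helper57.SS.Goals

/-!
# The quadratic form of a product of two measures of the circle
-/

set_option autoImplicit false

namespace Pool.Agent.Helper39.SS

open MeasureTheory Pool.Agent.Helper57.SS
open scoped ComplexConjugate

theorem cont_e2 (p : ℤ × ℤ) : Continuous (e2 p) := by
  unfold e2
  exact ((fourier p.1).continuous.comp continuous_fst).mul
    ((fourier p.2).continuous.comp continuous_snd)

theorem norm_e2 (p : ℤ × ℤ) (z : Ci × Ci) : ‖e2 p z‖ = 1 := by
  unfold e2
  rw [norm_mul, fourier_apply, fourier_apply, Circle.norm_coe, Circle.norm_coe, one_mul]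

theorem int_e2 (σ σ' : Measure Ci) [IsFiniteMeasure σ] [IsFiniteMeasure σ'] (p : ℤ × ℤ) :
    Integrable (e2 p) (σ.prod σ') :=
  Integrable.of_bound (cont_e2 p).aestronglyMeasurable 1
    (Filter.Eventually.of_forall fun z => (norm_e2 p z).le)

theorem e2_mul_conj (p q : ℤ × ℤ) (z : Ci × Ci) :
    e2 p z * conj (e2 q z) = e2 (p.1 - q.1, p.2 - q.2) z := by
  unfold e2
  have h : ∀ (m n : ℤ) (x : Ci), fourier (m - n) x = fourier m x * conj (fourier n x) := by
    intro m n x
    rw [sub_eq_add_neg, fourier_add, fourier_neg]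
  simp only [h, map_mul]
  ring

theorem gFORM : Pool.Agent.Helper57.SS.G_FORM := by
  intro σ σ' _ _ r r' hr hr' L1 L2 c
  have hint : ∀ m n : ℤ, ∫ z, e2 (m, n) z ∂(σ.prod σ') = ((r m * r' n : ℝ) : ℂ) := by
    intro m n
    unfold e2
    rw [MeasureTheory.integral_prod_mul (μ := σ) (ν := σ') (fun x => fourier m x)
      (fun y => fourier n y), hr, hr']
    push_cast
    rfl
  have hnorm : ∀ z, ((‖c.sum fun p u => u * e2 (L1 p, L2 p) z‖ ^ 2 : ℝ) : ℂ) =
      ∑ p ∈ c.support, ∑ q ∈ c.support,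
        (c p * conj (c q)) * e2 (L1 p - L1 q, L2 p - L2 q) z := by
    intro z
    push_cast
    rw [← Complex.mul_conj', Finsupp.sum, map_sum, Finset.sum_mul_sum]
    refine Finset.sum_congr rfl fun p _ => Finset.sum_congr rfl fun q _ => ?_
    rw [← e2_mul_conj (L1 p, L2 p) (L1 q, L2 q) z, map_mul]
    ring
  have h : ((∫ z, ‖c.sum fun p u => u * e2 (L1 p, L2 p) z‖ ^ 2 ∂(σ.prod σ') : ℝ) : ℂ) =
      c.sum fun p u => c.sum fun q v =>
        u * conj v * ((r (L1 p - L1 q) * r' (L2 p - L2 q) : ℝ) : ℂ) := by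
    rw [← integral_complex_ofReal]
    simp_rw [hnorm]
    rw [integral_finsetSum _ fun p _ => integrable_finsetSum _ fun q _ =>
      (int_e2 σ σ' _).const_mul _]
    simp only [Finsupp.sum]
    refine Finset.sum_congr rfl fun p _ => ?_
    rw [integral_finsetSum _ fun q _ => (int_e2 σ σ' _).const_mul _]
    refine Finset.sum_congr rfl fun q _ => ?_
    rw [integral_const_mul, hint]
  rw [← h]
  exact Complex.ofReal_re _

end Pool.Agent.Helper39.SS
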