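import Pool.Agent.Helper61.SS.Goals

/-!
# Packet SS-HULL (MP_552bae_an): a compact set is in the absolutely convex hull of a null sequence
-/

set_option autoImplicit false

namespace Pool.Agent.Helper39.SS

open Filter Topology

universe u

/-- The finite sets `E n` listed in a double sequence. -/
theorem listing {A : Type u} [NormedAddCommGroup A] [NormedSpace ℂ A] (E : ℕ → Set A)
    (hE : ∀ n, (E n).Finite)
    (hb : ∀ n, ∀ e ∈ E (n + 1), ‖e‖ ≤ 2 * (1 / 4 : ℝ) ^ n) :
    ∃ X : ℕ × ℕ → A, Tendsto X cofinite (𝓝 0) ∧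
      ∀ n, ∀ e ∈ E n, ∃ i, X (n, i) = (2 : ℂ) ^ (n + 1) • e := by
  classical
  let L : ℕ → List A := fun n => (hE n).toFinset.toList
  have hL : ∀ n e, e ∈ L n ↔ e ∈ E n := by
    intro n e
    simp [L]
  refine ⟨fun p => (2 : ℂ) ^ (p.1 + 1) • (L p.1).getD p.2 0, ?_, ?_⟩
  · rw [Metric.tendsto_nhds]
    intro ε hε
    obtain ⟨N, hN⟩ : ∃ N : ℕ, ∀ n, N ≤ n → (2 : ℝ) ^ (n + 2) * (2 * (1 / 4 : ℝ) ^ n) < ε := by
      have h1 : Tendsto (fun n : ℕ => 8 * (1 / 2 : ℝ) ^ n) atTop (𝓝 (8 * 0)) :=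
        (tendsto_pow_atTop_nhds_zero_of_lt_one (by norm_num) (by norm_num)).const_mul 8
      rw [mul_zero] at h1
      obtain ⟨N, hN⟩ := Filter.eventually_atTop.1 (h1.eventually (gt_mem_nhds hε))
      refine ⟨N, fun n hn => ?_⟩
      have h2 := hN n hn
      have h3 : (2 : ℝ) ^ (n + 2) * (2 * (1 / 4 : ℝ) ^ n) = 8 * (1 / 2 : ℝ) ^ n := by
        have : (1 / 4 : ℝ) ^ n = (1 / 2 : ℝ) ^ n * (1 / 2 : ℝ) ^ n := by
          rw [← mul_pow]; norm_num
        rw [this, pow_add]
        have h4 : (2 : ℝ) ^ n * (1 / 2 : ℝ) ^ n = 1 := by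
          rw [← mul_pow]; norm_num
        calc (2 : ℝ) ^ n * 2 ^ 2 * (2 * ((1 / 2 : ℝ) ^ n * (1 / 2 : ℝ) ^ n))
            = 8 * ((2 : ℝ) ^ n * (1 / 2 : ℝ) ^ n) * (1 / 2 : ℝ) ^ n := by ring
          _ = 8 * (1 / 2 : ℝ) ^ n := by rw [h4]; ring
      rw [h3]; exact h2
    rw [Filter.eventually_cofinite]
    refine Set.Finite.subset
      (((Finset.range (N + 1)).biUnion
        (fun n => (Finset.range (L n).length).image (fun i => (n, i)))).finite_toSet) ?_
    rintro ⟨n, i⟩ hp
    simp only [Set.mem_ofPred_eq, dist_zero_right, not_lt] at hp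
    simp only [Finset.coe_biUnion, Finset.coe_range, Set.mem_Iio, Finset.coe_image,
      Set.mem_iUnion, Set.mem_image, Prod.mk.injEq, exists_prop]
    by_contra hcon
    have hi : n < N + 1 → ¬ i < (L n).length := fun h1 h2 =>
      hcon ⟨n, h1, i, h2, rfl, rfl⟩
    have hzero : ¬ i < (L n).length → ‖(2 : ℂ) ^ (n + 1) • (L n).getD i 0‖ < ε := by
      intro h
      have : (L n).getD i 0 = 0 := by
        rw [List.getD_eq_getElem?_getD, List.getElem?_eq_none (by omega)]; rfl
      rw [this, smul_zero, norm_zero]; exact hε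
    rcases Nat.lt_or_ge n (N + 1) with hn | hn
    · exact absurd hp (not_le.2 (hzero (hi hn)))
    · by_cases h : i < (L n).length
      · have hmem : (L n).getD i 0 ∈ E n := by
          rw [← hL, List.getD_eq_getElem?_getD, List.getElem?_eq_getElem h]
          exact List.getElem_mem h
        obtain ⟨m, rfl⟩ : ∃ m, n = m + 1 := ⟨n - 1, by omega⟩
        have h1 := hb m _ hmem
        have h2 := hN m (by omega)
        have h3 : ‖(2 : ℂ) ^ (m + 1 + 1) • (L (m + 1)).getD i 0‖ < ε := by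
          rw [norm_smul, norm_pow, Complex.norm_ofNat]
          calc (2 : ℝ) ^ (m + 1 + 1) * ‖(L (m + 1)).getD i 0‖
              ≤ (2 : ℝ) ^ (m + 2) * (2 * (1 / 4 : ℝ) ^ m) :=
                mul_le_mul_of_nonneg_left h1 (by positivity)
            _ < ε := h2
        exact absurd hp (not_le.2 h3)
      · exact absurd hp (not_le.2 (hzero h))
  · intro n e he
    rw [← hL] at he
    obtain ⟨i, hi, rfl⟩ := List.getElem_of_mem he
    refine ⟨i, ?_⟩
    simp only
    rw [List.getD_eq_getElem?_getD, List.getElem?_eq_getElem hi]; rfl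

/-- Packet HULL. -/
theorem gHULL : Pool.Agent.Helper61.SS.G_HULL.{u} := by
  classical
  intro A _ _ _ K hK
  have hnet : ∀ n : ℕ, ∃ t : Set A, t.Finite ∧ K ⊆ ⋃ y ∈ t, Metric.ball y ((1 / 4 : ℝ) ^ n) :=
    fun n => (Metric.totallyBounded_iff.1 hK.totallyBounded) _ (by positivity)
  choose t ht hcov using hnet
  have hpt : ∀ n : ℕ, ∀ y ∈ K, ∃ a ∈ t n, dist y a < (1 / 4 : ℝ) ^ n := by
    intro n y hy
    have := hcov n hy
    simp only [Set.mem_iUnion, Metric.mem_ball, exists_prop] at this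
    exact this
  choose! a ha hd using hpt
  let E : ℕ → Set A := fun n => Nat.casesOn n (t 0)
    (fun n => {e | (∃ u ∈ t (n + 1), ∃ v ∈ t n, e = u - v) ∧ ‖e‖ ≤ 2 * (1 / 4 : ℝ) ^ n})
  have hE : ∀ n, (E n).Finite := by
    intro n
    cases n with
    | zero => exact ht 0
    | succ n =>
      refine Set.Finite.subset (Set.Finite.image2 (fun u v => u - v) (ht (n + 1)) (ht n)) ?_
      rintro e ⟨⟨u, hu, v, hv, rfl⟩, -⟩
      exact ⟨u, hu, v, hv, rfl⟩
  obtain ⟨X, hX, hidx⟩ := listing E hE (fun n e he => he.2)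
  refine ⟨fun k => X (Nat.unpair k), ?_, ?_⟩
  · rw [← Nat.cofinite_eq_atTop]
    exact hX.comp (Nat.pairEquiv.symm.injective.tendsto_cofinite)
  intro y hy
  let d : ℕ → A := fun n => Nat.casesOn n (a 0 y) (fun n => a (n + 1) y - a n y)
  have hdE : ∀ n, d n ∈ E n := by
    intro n
    cases n with
    | zero => exact ha 0 y hy
    | succ n =>
      refine ⟨⟨a (n + 1) y, ha (n + 1) y hy, a n y, ha n y hy, rfl⟩, ?_⟩
      have h1 := hd n y hy
      have h2 := hd (n + 1) y hy
      have h3 : dist (a (n + 1) y) (a n y) ≤ dist y (a (n + 1) y) + dist y (a n y) :=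
        dist_triangle_left _ _ _
      rw [dist_eq_norm] at h3
      have h4 : (1 / 4 : ℝ) ^ (n + 1) ≤ (1 / 4 : ℝ) ^ n :=
        pow_le_pow_of_le_one (by norm_num) (by norm_num) (Nat.le_succ n)
      linarith
  have hsum : HasSum d y := by
    have hs : Summable d := by
      rw [← summable_nat_add_iff 1]
      refine Summable.of_norm_bounded
        ((summable_geometric_of_lt_one (r := (1 / 4 : ℝ)) (by norm_num) (by norm_num)).mul_left 2)
        (fun n => (hdE (n + 1)).2)
    have hpart : ∀ n, ∑ i ∈ Finset.range (n + 1), d i = a n y := by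
      intro n
      induction n with
      | zero => simp [d]
      | succ n ih => rw [Finset.sum_range_succ, ih]; simp [d]
    have hlim : Tendsto (fun n => a n y) atTop (𝓝 y) := by
      rw [tendsto_iff_dist_tendsto_zero]
      refine squeeze_zero (fun _ => dist_nonneg) (fun n => ?_)
        (tendsto_pow_atTop_nhds_zero_of_lt_one (r := (1 / 4 : ℝ)) (by norm_num) (by norm_num))
      rw [dist_comm]; exact (hd n y hy).le
    have h1 := hs.hasSum.tendsto_sum_nat
    have h2 := (tendsto_add_atTop_iff_nat 1).2 h1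
    simp only [hpart] at h2
    rw [← tendsto_nhds_unique h2 hlim]
    exact hs.hasSum
  choose idx hidx' using fun n => hidx n (d n) (hdE n)
  let l : ℕ × ℕ → ℂ := fun p => if p.2 = idx p.1 then (1 / 2 : ℂ) ^ (p.1 + 1) else 0
  have hinj : Function.Injective (fun n => ((n, idx n) : ℕ × ℕ)) := fun m n h => (Prod.mk.inj h).1
  have hout : ∀ p : ℕ × ℕ, p ∉ Set.range (fun n => ((n, idx n) : ℕ × ℕ)) → l p = 0 := by
    rintro ⟨n, i⟩ hp
    have : ¬ i = idx n := by
      rintro rfl
      exact hp ⟨n, rfl⟩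
    simp [l, this]
  have hln : HasSum (fun p => ‖l p‖) 1 := by
    rw [← hinj.hasSum_iff (fun p hp => by rw [hout p hp, norm_zero])]
    have h1 : ((fun p => ‖l p‖) ∘ fun n => ((n, idx n) : ℕ × ℕ))
        = fun n => (1 / 2 : ℝ) * (1 / 2) ^ n := by
      funext n
      simp only [Function.comp_apply, l, if_true, pow_succ]
      rw [norm_mul, norm_pow]
      norm_num
      ring
    rw [h1]
    have h2 := (hasSum_geometric_of_lt_one (r := (1 / 2 : ℝ)) (by norm_num) (by norm_num)).mul_left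
      (1 / 2 : ℝ)
    norm_num at h2 ⊢
    exact h2
  have hls : HasSum (fun p => l p • X p) y := by
    rw [← hinj.hasSum_iff (fun p hp => by rw [hout p hp, zero_smul])]
    have h1 : ((fun p => l p • X p) ∘ fun n => ((n, idx n) : ℕ × ℕ)) = d := by
      funext n
      simp only [Function.comp_apply, l, if_true]
      rw [hidx', smul_smul, ← mul_pow]
      norm_num
    rw [h1]; exact hsum
  refine ⟨fun k => l (Nat.unpair k), ?_, ?_, ?_⟩
  · exact (Nat.pairEquiv.symm.summable_iff (f := fun p => ‖l p‖)).2 hln.summable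
  · have h1 : ∑' k, ‖l (Nat.unpair k)‖ = ∑' p, ‖l p‖ :=
      Nat.pairEquiv.symm.tsum_eq (fun p => ‖l p‖)
    rw [h1, hln.tsum_eq]
  · exact (Nat.pairEquiv.symm.hasSum_iff (f := fun p => l p • X p)).2 hls

end Pool.Agent.Helper39.SS
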